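import Pool.Agent.H.MP_f44585_an.A

set_option autoImplicit false

namespace Pool.Agent.H.MP_0447a2_lc
open Finset Filter Topology Pool.Agent.H.MP_f44585_an

def UD (u : ℕ → ℝ) : Prop :=
  ∀ s t : ℝ, 0 ≤ s → s ≤ t → t ≤ 1 →
    Tendsto (fun N : ℕ => (((range N).filter (fun n =>
      s ≤ Int.fract (u n) ∧ Int.fract (u n) < t)).card : ℝ) / (N : ℝ)) atTop (nhds (t - s))

def WS (u : ℕ → ℝ) : Prop :=
  ∀ k : ℕ, 1 ≤ k → Tendsto (fun N : ℕ => (∑ n ∈ range N, ee (k * u n)) / N) atTop (𝓝 0)

theorem ee_int (n : ℤ) : ee n = 1 := by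
  rw [ee, Complex.exp_eq_one_iff]
  exact ⟨n, by push_cast; ring⟩

theorem ud_of_ws {u : ℕ → ℝ} (h : WS u) : UD u := by
  intro s t hs hst ht
  rcases hst.eq_or_lt with rfl | hlt
  · have : ∀ N : ℕ, (range N).filter (fun n => s ≤ Int.fract (u n) ∧ Int.fract (u n) < s) = ∅ :=
      fun N => filter_eq_empty_iff.mpr fun n _ h => absurd h.2 (not_lt.mpr h.1)
    simp [this]
  · refine (weyl h hs hlt ht).congr fun N => ?_
    congr 3

theorem ws_of_ud {u : ℕ → ℝ} (h : UD u) : WS u := by
  intro k hk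
  rw [Metric.tendsto_atTop]
  intro ε hε
  obtain ⟨K, hK⟩ := exists_nat_gt (max (k : ℝ) (14 * k / ε))
  have hkK : (k : ℝ) < K := (le_max_left _ _).trans_lt hK
  have hk0 : (0 : ℝ) < k := by exact_mod_cast hk
  have hK0 : (0 : ℝ) < K := hk0.trans hkK
  have h7 : 7 * k / K < ε / 2 := by
    have := (le_max_right _ _).trans_lt hK
    rw [div_lt_iff₀ hε] at this
    rw [div_lt_iff₀ hK0]
    linarith
  have hz : ∑ i ∈ range K, ee (k * (i / K)) = 0 := by
    have e1 : ∀ i : ℕ, ee (k * (i / K)) = ee (k / K) ^ i := fun i => by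
      rw [← ee_nat]; congr 1; ring
    simp only [e1]
    have e2 : ee (k / K) ≠ 1 := fun h => by
      obtain ⟨n, hn⟩ := ee_one h
      have h1 : (0 : ℝ) < n := hn ▸ div_pos hk0 hK0
      have h2 : (n : ℝ) < 1 := hn ▸ (div_lt_one hK0).mpr hkK
      have h3 : (0 : ℤ) < n := by exact_mod_cast h1
      have h4 : n < (1 : ℤ) := by exact_mod_cast h2
      omega
    rw [geom_sum_eq e2, ← ee_nat, mul_div_cancel₀ _ hK0.ne']
    have := ee_int k
    simp only [Int.cast_natCast] at this
    simp [this]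
  have hp : ∀ x : ℝ, ‖ee (k * x) - ∑ i ∈ range K,
      (if (i : ℝ) / K ≤ Int.fract x ∧ Int.fract x < (i + 1) / K then ee (k * (i / K)) else 0)‖ ≤
        7 * k / K := by
    intro x
    have f0 := Int.fract_nonneg x
    have f1 := Int.fract_lt_one x
    set j := ⌊Int.fract x * K⌋₊ with hj
    have j1 : (j : ℝ) ≤ Int.fract x * K := Nat.floor_le (by positivity)
    have j2 : Int.fract x * K < j + 1 := Nat.lt_floor_add_one _
    have j3 : j < K := by
      have : (j : ℝ) < K := j1.trans_lt (by nlinarith)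
      exact_mod_cast this
    rw [sum_eq_single j, if_pos ⟨by rwa [div_le_iff₀ hK0], by rwa [lt_div_iff₀ hK0]⟩]
    · have : ee (k * x) = ee (k * Int.fract x) := by
        rw [← Int.floor_add_fract x, Int.fract_intCast_add, Int.fract_fract, mul_add, ee_add]
        have := ee_int (k * ⌊x⌋)
        push_cast at this
        rw [this, one_mul]
      rw [this]
      refine (ee_sub _ _).trans ?_
      have h8 : |Int.fract x - j / K| ≤ 1 / K := by
        have : Int.fract x - j / K = (Int.fract x * K - j) / K := by field_simp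
        rw [this, abs_div, abs_of_pos hK0]
        gcongr
        exact abs_le.mpr ⟨by linarith, by linarith⟩
      rw [← mul_sub, abs_mul, abs_of_pos hk0]
      calc 7 * (k * |Int.fract x - j / K|) ≤ 7 * (k * (1 / K)) := by gcongr
        _ = 7 * k / K := by ring
    · intro i _ hi
      refine if_neg fun h => hi ?_
      rw [div_le_iff₀ hK0, lt_div_iff₀ hK0] at h
      exact ((Nat.floor_eq_iff (by positivity)).mpr h).symm
    · intro h
      exact absurd (mem_range.mpr j3) h
  have hl : Tendsto (fun N : ℕ => ∑ i ∈ range K, ((((range N).filter (fun n =>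
      (i : ℝ) / K ≤ Int.fract (u n) ∧ Int.fract (u n) < (i + 1) / K)).card : ℝ) / (N : ℝ) : ℝ) *
        ee (k * (i / K))) atTop (𝓝 (∑ i ∈ range K, (((i + 1) / K - i / K : ℝ) : ℂ) *
          ee (k * (i / K)))) := by
    refine tendsto_finset_sum _ fun i hi => Tendsto.mul_const _ ?_
    refine (Complex.continuous_ofReal.tendsto _).comp (h _ _ (by positivity) (by gcongr; simp) ?_)
    rw [div_le_one hK0]
    exact_mod_cast mem_range.mp hi
  have e3 : ∑ i ∈ range K, (((i + 1) / K - i / K : ℝ) : ℂ) * ee (k * (i / K)) = 0 := by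
    have : ∀ i : ℕ, ((i + 1) / K - i / K : ℝ) = 1 / K := fun i => by ring
    simp only [this, ← mul_sum, hz, mul_zero]
  rw [e3, Metric.tendsto_atTop] at hl
  obtain ⟨N0, hN0⟩ := hl (ε / 2) (by positivity)
  refine ⟨max N0 1, fun N hN => ?_⟩
  have hN1 : (0 : ℝ) < N := by exact_mod_cast (le_max_right _ _).trans hN
  have h1 := hN0 N ((le_max_left _ _).trans hN)
  rw [dist_zero_right] at h1 ⊢
  have h2 : ‖(∑ n ∈ range N, ee (k * u n)) / N - ∑ i ∈ range K, ((((range N).filter (fun n =>
      (i : ℝ) / K ≤ Int.fract (u n) ∧ Int.fract (u n) < (i + 1) / K)).card : ℝ) / (N : ℝ) : ℝ) *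
        ee (k * (i / K))‖ ≤ 7 * k / K := by
    have : ∑ i ∈ range K, ((((range N).filter (fun n =>
      (i : ℝ) / K ≤ Int.fract (u n) ∧ Int.fract (u n) < (i + 1) / K)).card : ℝ) / (N : ℝ) : ℝ) *
        ee (k * (i / K)) = (∑ n ∈ range N, ∑ i ∈ range K,
      (if (i : ℝ) / K ≤ Int.fract (u n) ∧ Int.fract (u n) < (i + 1) / K then ee (k * (i / K))
        else 0)) / N := by
      rw [sum_comm, sum_div]
      refine sum_congr rfl fun i _ => ?_
      rw [← sum_filter, sum_const, nsmul_eq_mul]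
      push_cast
      ring
    rw [this, ← sub_div, ← sum_sub_distrib, norm_div, Complex.norm_natCast, div_le_iff₀ hN1]
    refine (norm_sum_le_of_le _ fun n _ => hp (u n)).trans ?_
    simp [mul_comm]
  linarith [norm_le_norm_add_norm_sub' _ _ |>.trans (add_le_add_right h2 _)]

theorem ud_pi3 {X : Type} [TopologicalSpace X] (u : X → ℕ → ℝ) (hu : ∀ n, Continuous fun x => u x n) :
    ∃ F : ℕ → ℕ → Set X, (∀ i j, IsClosed (F i j)) ∧ {x | UD (u x)} = ⋂ i, ⋃ j, F i j := by
  refine ⟨fun i j => ⋂ N : ℕ, ⋂ _ : j ≤ N, {x | ‖(∑ n ∈ range N,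
    ee (((Nat.unpair i).1 + 1 : ℕ) * u x n)) / N‖ ≤ 1 / ((Nat.unpair i).2 + 1)}, fun i j => ?_, ?_⟩
  · refine isClosed_iInter fun N => isClosed_iInter fun _ => isClosed_le ?_ continuous_const
    unfold ee
    fun_prop
  · ext x
    simp only [Set.mem_setOf_eq, Set.mem_iInter, Set.mem_iUnion]
    constructor
    · intro h i
      obtain ⟨N, hN⟩ := Metric.tendsto_atTop.mp (ws_of_ud h ((Nat.unpair i).1 + 1) (by omega))
        (1 / ((Nat.unpair i).2 + 1)) (by positivity)
      exact ⟨N, fun n hn => by simpa using (hN n hn).le⟩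
    · intro h
      refine ud_of_ws fun k hk => Metric.tendsto_atTop.mpr fun ε hε => ?_
      obtain ⟨e, he⟩ := exists_nat_one_div_lt hε
      obtain ⟨N, hN⟩ := h (Nat.pair (k - 1) e)
      refine ⟨N, fun n hn => ?_⟩
      have := hN n hn
      rw [Nat.unpair_pair, Nat.sub_add_cancel hk] at this
      rw [dist_zero_right]
      exact this.trans_lt he

theorem red (G : ℕ → ℕ → Set (ℕ → ℕ)) (hG : ∀ i j, IsClosed (G i j)) :
    ∃ m : (ℕ → ℕ) → ℕ → ℕ, (∀ n, IsLocallyConstant fun x => m x n) ∧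
      ∀ x, x ∈ ⋂ i, ⋃ j, G i j ↔ Tendsto (m x) atTop atTop := by
  classical
  have h1 : ∀ (i n : ℕ) (C : Set (ℕ → ℕ)), ∃ j, n ≤ j ∨ (C ∩ G i j).Nonempty :=
    fun i n C => ⟨n, Or.inl le_rfl⟩
  let r : ℕ → (ℕ → ℕ) → ℕ → ℕ := fun i x n => Nat.find (h1 i n (PiNat.cylinder x n))
  have h2 : ∀ (n : ℕ) (x : ℕ → ℕ), ∃ i, n ≤ i ∨ r i x n ≠ r i x (n + 1) :=
    fun n x => ⟨n, Or.inl le_rfl⟩
  have hmono : ∀ i x, Monotone (r i x) := fun i x => monotone_nat_of_le_succ fun n => by
    refine Nat.find_mono fun j hj => hj.imp (fun h => by omega) fun h => h.mono ?_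
    exact Set.inter_subset_inter_left _ (PiNat.cylinder_anti x (Nat.le_succ n))
  refine ⟨fun x n => Nat.find (h2 n x), fun n => ?_, fun x => ?_⟩
  · refine (IsLocallyConstant.iff_exists_open _).mpr fun x =>
      ⟨_, PiNat.isOpen_cylinder _ x (n + 1), PiNat.self_mem_cylinder _ _, fun y hy => ?_⟩
    have e1 : PiNat.cylinder y (n + 1) = PiNat.cylinder x (n + 1) :=
      PiNat.mem_cylinder_iff_eq.mp hy
    have e2 : PiNat.cylinder y n = PiNat.cylinder x n :=
      PiNat.mem_cylinder_iff_eq.mp (PiNat.cylinder_anti x (Nat.le_succ n) hy)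
    refine Nat.find_congr' fun {i} => ?_
    simp only [r, e1, e2]
  · simp only [Set.mem_iInter, Set.mem_iUnion]
    constructor
    · intro h
      have h3 : ∀ i, ∀ᶠ n in atTop, r i x n = r i x (n + 1) := by
        intro i
        obtain ⟨j, hj⟩ := h i
        have hb : ∀ n, r i x n ≤ j := fun n =>
          Nat.find_le (Or.inr ⟨x, PiNat.self_mem_cylinder _ _, hj⟩)
        obtain ⟨c, N, hN⟩ := converges_of_monotone_of_bounded (hmono i x) hb
        exact eventually_atTop.mpr ⟨N, fun n hn => by rw [hN n hn, hN (n + 1) (by omega)]⟩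
      refine tendsto_atTop.mpr fun b => ?_
      filter_upwards [(eventually_all_finset (range b)).mpr fun i _ => h3 i, eventually_ge_atTop b]
        with n hn hb
      refine (Nat.le_find_iff _ _).mpr fun i hi h => h.elim (fun h => by omega)
        fun h => h (hn i (mem_range.mpr hi))
    · intro h i
      by_contra hc
      push Not at hc
      have h3 : ∀ b, ∀ᶠ n in atTop, b ≤ r i x n := by
        intro b
        have h4 : ∀ j, ∀ᶠ n in atTop, ¬ (PiNat.cylinder x n ∩ G i j).Nonempty := by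
          intro j
          obtain ⟨_, ⟨y, N, rfl⟩, hy, hs⟩ := (PiNat.isTopologicalBasis_cylinders
            (fun _ : ℕ => ℕ)).exists_subset_of_mem_open (hc j) (hG i j).isOpen_compl
          refine eventually_atTop.mpr ⟨N, fun n hn ⟨z, z1, z2⟩ => hs ?_ z2⟩
          rw [← PiNat.mem_cylinder_iff_eq.mp hy]
          exact PiNat.cylinder_anti x hn z1
        filter_upwards [(eventually_all_finset (range b)).mpr fun j _ => h4 j,
          eventually_ge_atTop b] with n hn hb
        exact (Nat.le_find_iff _ _).mpr fun j hj h => h.elim (fun h => by omega)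
          fun h => hn j (mem_range.mpr hj) h
      obtain ⟨N, hN⟩ := eventually_atTop.mp (tendsto_atTop.mp h (i + 1))
      have h5 : ∀ n, N ≤ n → r i x n = r i x N := by
        intro n hn
        induction hn with
        | refl => rfl
        | @step n hn ih =>
          rw [← ih]
          by_contra h6
          have := Nat.find_le (h := h2 n x) (Or.inr (Ne.symm h6) : n ≤ i ∨ _)
          have := hN n hn
          omega
      obtain ⟨n, h6, h7⟩ := ((h3 (r i x N + 1)).and (eventually_ge_atTop N)).exists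
      rw [h5 n h7] at h6
      omega

theorem diag : ∃ G : Bool → ℕ → ℕ → Set (ℕ → ℕ), (∀ e i j, IsClosed (G e i j)) ∧
    ∀ F : Bool → ℕ → ℕ → Set (ℕ → ℕ), (∀ e i j, IsClosed (F e i j)) →
      ((⋂ i, ⋃ j, G true i j) \ ⋂ i, ⋃ j, G false i j)ᶜ ≠
        (⋂ i, ⋃ j, F true i j) \ ⋂ i, ⋃ j, F false i j := by
  classical
  obtain ⟨c, hc⟩ := exists_injective_nat (Bool × ℕ × ℕ × (Σ n : ℕ, Fin n → ℕ))
  let C : (Σ n : ℕ, Fin n → ℕ) → Set (ℕ → ℕ) := fun s => {y | ∀ i : Fin s.1, y i = s.2 i}
  have hC : ∀ s, IsOpen (C s) := fun s => by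
    simp only [C, Set.setOf_forall]
    exact isOpen_iInter_of_finite fun i =>
      (continuous_apply (A := fun _ : ℕ => ℕ) i.1).isOpen_preimage {s.2 i} (isOpen_discrete _)
  refine ⟨fun e i j => {y | ∀ s, y (c (e, i, j, s)) = 0 → y ∉ C s}, fun e i j => ?_, ?_⟩
  · simp only [Set.setOf_forall (fun s (y : ℕ → ℕ) => y (c (e, i, j, s)) = 0 → y ∉ C s)]
    refine isClosed_iInter fun s => isClosed_imp ?_ (hC s).isClosed_compl
    exact (continuous_apply (A := fun _ : ℕ => ℕ) _).isOpen_preimage {0} (isOpen_discrete _)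
  · intro F hF h
    let y : ℕ → ℕ := fun n => if ∃ e i j s, n = c (e, i, j, s) ∧ Disjoint (C s) (F e i j) then 0 else 1
    have hy : ∀ e i j, y ∈ {y : ℕ → ℕ | ∀ s, y (c (e, i, j, s)) = 0 → y ∉ C s} ↔ y ∈ F e i j := by
      intro e i j
      constructor
      · intro h
        by_contra hn
        obtain ⟨_, ⟨z, N, rfl⟩, hz, hs⟩ := (PiNat.isTopologicalBasis_cylinders
          (fun _ : ℕ => ℕ)).exists_subset_of_mem_open hn (hF e i j).isOpen_compl
        refine h ⟨N, fun k => y k⟩ (if_pos ⟨e, i, j, _, rfl, Set.disjoint_left.mpr fun w hw => hs ?_⟩)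
          fun _ => rfl
        rw [← PiNat.mem_cylinder_iff_eq.mp hz]
        exact fun k hk => hw ⟨k, hk⟩
      · intro h s h0 hs
        have : ∃ e' i' j' s', c (e, i, j, s) = c (e', i', j', s') ∧ Disjoint (C s') (F e' i' j') := by
          by_contra hn
          simp only [y, if_neg hn] at h0
          cases h0
        obtain ⟨e', i', j', s', h1, h2⟩ := this
        cases hc h1
        exact Set.disjoint_left.mp h2 hs h
    have := Set.ext_iff.mp h y
    simp only [Set.mem_compl_iff, Set.mem_diff, Set.mem_iInter, Set.mem_iUnion, hy] at this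
    exact not_iff_self this

end Pool.Agent.H.MP_0447a2_lc
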