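import Pool.Agent.H.MP_0447a2_lc.A

set_option autoImplicit false

namespace Pool.Agent.H.MP_0447a2_lc
open Finset Filter Topology Asymptotics

def Step (l l' : ℝ) (P : ℝ → Prop) : Prop :=
  ∀ p, ∃ p', p ≤ p' ∧ p' + l' ≤ p + l ∧ ∀ t, p' ≤ t → t ≤ p' + l' → P t

theorem Step.comp {l l' l'' : ℝ} {P Q : ℝ → Prop} (h : Step l l' P) (h' : Step l' l'' Q) :
    Step l l'' fun t => P t ∧ Q t := by
  intro p
  obtain ⟨q, h1, h2, h3⟩ := h p
  obtain ⟨r, h4, h5, h6⟩ := h' q
  exact ⟨r, h1.trans h4, h5.trans h2, fun t a b => ⟨h3 t (h4.trans a) (b.trans h5), h6 t a b⟩⟩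

theorem Step.mono {l l' m m' : ℝ} {P Q : ℝ → Prop} (h : Step l l' P) (h1 : l ≤ m) (h2 : m' ≤ l')
    (h3 : ∀ t, P t → Q t) : Step m m' Q := by
  intro p
  obtain ⟨q, a, b, c⟩ := h p
  exact ⟨q, a, by linarith, fun t d e => h3 t (c t d (by linarith))⟩

theorem machine {Y : Type} [TopologicalSpace Y] (l : ℕ → ℝ) (hl0 : ∀ k, 0 ≤ l k)
    (hanti : ∀ k, l (k + 1) ≤ l k) (hl : Tendsto l atTop (𝓝 0))
    (Pr : ℕ × ℕ → ℕ → ℕ → ℝ → Prop)
    (h : ∀ μ H, ∀ᶠ k in atTop, Step (l k) (l (k + 1)) (Pr μ H k))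
    (m : Y → ℕ → ℕ × ℕ) (hm : ∀ k, IsLocallyConstant fun y => m y k) :
    ∃ (f : Y → ℝ) (g : ℕ → ℕ), Continuous f ∧ Tendsto g atTop atTop ∧ ∀ y, ∀ᶠ k in atTop,
      Pr (min (m y k).1 (g k), min (m y k).2 (g k)) (g k) k (f y) := by
  classical
  let Ok : ℕ → ℕ → Prop := fun k H => ∀ μ ∈ range (H + 1) ×ˢ range (H + 1),
    Step (l k) (l (k + 1)) (Pr μ H k)
  have hOk : ∀ H, ∀ᶠ k in atTop, Ok k H := fun H =>
    (eventually_all_finset _).mpr fun μ _ => h μ H
  let g : ℕ → ℕ := fun k => Nat.findGreatest (Ok k) k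
  have hs : ∀ (μ : ℕ × ℕ) k p, ∃ p', p ≤ p' ∧ p' + l (k + 1) ≤ p + l k ∧
      (Step (l k) (l (k + 1)) (Pr μ (g k) k) →
        ∀ t, p' ≤ t → t ≤ p' + l (k + 1) → Pr μ (g k) k t) := by
    intro μ k p
    by_cases hc : Step (l k) (l (k + 1)) (Pr μ (g k) k)
    · obtain ⟨p', h1, h2, h3⟩ := hc p
      exact ⟨p', h1, h2, fun _ => h3⟩
    · exact ⟨p, le_rfl, by linarith [hanti k], fun h => absurd h hc⟩
  choose nx n1 n2 n3 using hs
  let P : Y → ℕ → ℝ := fun y k =>
    Nat.rec 0 (fun k p => nx (min (m y k).1 (g k), min (m y k).2 (g k)) k p) k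
  have hP : ∀ y k, P y (k + 1) = nx (min (m y k).1 (g k), min (m y k).2 (g k)) k (P y k) :=
    fun _ _ => rfl
  have hc : ∀ k, IsLocallyConstant fun y => P y k := by
    intro k
    induction k with
    | zero => exact IsLocallyConstant.const _
    | succ k ih =>
      exact (hm k).comp₂ ih fun μ p => nx (min μ.1 (g k), min μ.2 (g k)) k p
  have m1 : ∀ y, Monotone (P y) := fun y => monotone_nat_of_le_succ fun k => n1 _ _ _
  have m2 : ∀ y, Antitone fun k => P y k + l k := fun y =>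
    antitone_nat_of_succ_le fun k => n2 _ _ _
  have hb : ∀ y j k, P y j ≤ P y k + l k := fun y j k => by
    have := m1 y (le_max_left j k)
    have := m2 y (le_max_right j k)
    have := hl0 (max j k)
    linarith
  have f1 : ∀ y k, P y k ≤ ⨆ j, P y j := fun y k =>
    le_ciSup (f := P y) ⟨_, by rintro _ ⟨j, rfl⟩; exact hb y j 0⟩ k
  have f2 : ∀ y k, ⨆ j, P y j ≤ P y k + l k := fun y k => ciSup_le fun j => hb y j k
  refine ⟨fun y => ⨆ j, P y j, g, ?_, ?_, fun y => ?_⟩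
  · refine TendstoUniformly.continuous (F := fun k y => P y k) (p := atTop) ?_
      (Eventually.of_forall fun k => (hc k).continuous).frequently
    refine Metric.tendstoUniformly_iff.mpr fun ε hε => ?_
    filter_upwards [(tendsto_order.mp hl).2 ε hε] with k hk y
    rw [Real.dist_eq, abs_lt]
    constructor <;> linarith [f1 y k, f2 y k]
  · refine tendsto_atTop.mpr fun H => ?_
    filter_upwards [hOk H, eventually_ge_atTop H] with k h1 h2
    exact Nat.le_findGreatest h2 h1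
  · filter_upwards [hOk 0] with k hk
    have : Ok k (g k) := Nat.findGreatest_spec (Nat.zero_le k) hk
    exact n3 _ k (P y k) (this _ (by simp [Nat.lt_succ_iff])) _ (f1 y (k + 1)) (f2 y (k + 1))

theorem ces (T : ℕ → ℕ) (hT : Monotone T) {c C : ℝ} (hc : 0 < c) (h1 : ∀ k : ℕ, c * k ^ 2 ≤ T k)
    (h2 : ∀ k : ℕ, (T (k + 1) : ℝ) ≤ T k + C * (k + 1)) (x : ℕ → ℂ) (hx : ∀ n, ‖x n‖ ≤ 1)
    (hb : (fun k => ∑ n ∈ Ico (T k) (T (k + 1)), x n) =o[atTop] fun k : ℕ => (k : ℝ) + 1) :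
    Tendsto (fun N : ℕ => (∑ n ∈ range N, x n) / N) atTop (𝓝 0) := by
  have hA : ∀ k, ∑ n ∈ range (T k), x n = ∑ n ∈ range (T 0), x n +
      ∑ i ∈ range k, ∑ n ∈ Ico (T i) (T (i + 1)), x n := by
    intro k
    induction k with
    | zero => simp
    | succ k ih => rw [sum_range_succ, ← add_assoc, ← ih, sum_range_add_sum_Ico _ (hT k.le_succ)]
  have l0 : ∀ i, i < 2 → (fun k : ℕ => (k : ℝ) ^ i) =o[atTop] fun k : ℕ => (k : ℝ) ^ 2 :=
    fun i hi => (isLittleO_pow_pow_atTop_of_lt (𝕜 := ℝ) hi).comp_tendsto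
      tendsto_natCast_atTop_atTop
  have l00 : (fun _ : ℕ => (1 : ℝ)) =o[atTop] fun k : ℕ => (k : ℝ) ^ 2 :=
    (l0 0 two_pos).congr_left fun k => pow_zero _
  have l1 : (fun k : ℕ => (k : ℝ) + 1) =o[atTop] fun k : ℕ => (k : ℝ) ^ 2 :=
    ((l0 1 one_lt_two).congr_left fun k => pow_one _).add l00
  have l2 : (fun k => ∑ n ∈ range (T k), x n) =o[atTop] fun k : ℕ => (k : ℝ) ^ 2 := by
    refine IsLittleO.congr_left ?_ fun k => (hA k).symm
    refine IsLittleO.add ?_ ((hb.sum_range (fun k => by positivity) ?_).trans_isBigO ?_)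
    · exact (isBigO_const_const _ (one_ne_zero' ℝ) _).trans_isLittleO l00
    · refine tendsto_atTop_mono (fun k => ?_) tendsto_natCast_atTop_atTop
      simpa using card_nsmul_le_sum (range k) (fun i : ℕ => (i : ℝ) + 1) 1 fun i _ => by simp
    · refine IsBigO.of_bound' (Eventually.of_forall fun k => ?_)
      rw [Real.norm_of_nonneg (by positivity), Real.norm_of_nonneg (by positivity)]
      have := sum_le_card_nsmul (range k) (fun i : ℕ => (i : ℝ) + 1) k fun i hi => by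
        exact_mod_cast mem_range.mp hi
      simpa [sq] using this
  have l3 := (l2.norm_left.add (l1.const_mul_left C)).tendsto_div_nhds_zero.div_const c
  have hT' : Tendsto T atTop atTop := by
    refine tendsto_natCast_atTop_iff.mp (tendsto_atTop_mono h1 ?_)
    exact ((tendsto_pow_atTop two_ne_zero).comp tendsto_natCast_atTop_atTop).const_mul_atTop hc
  have hk : ∀ N, ∃ k, N < T (k + 1) := fun N =>
    ((hT'.comp (tendsto_add_atTop_nat 1)).eventually_gt_atTop N).exists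
  have hk' : Tendsto (fun N => Nat.find (hk N)) atTop atTop := by
    refine tendsto_atTop.mpr fun b => ?_
    filter_upwards [eventually_ge_atTop (T b)] with N hN
    exact (Nat.le_find_iff _ _).mpr fun j hj h => absurd ((hT hj).trans hN) (not_le.mpr h)
  rw [zero_div] at l3
  refine squeeze_zero_norm' ?_ (l3.comp hk')
  filter_upwards [hk'.eventually_ge_atTop 1] with N hN
  have e1 := Nat.find_spec (hk N)
  simp only [Function.comp]
  generalize hj : Nat.find (hk N) = j at hN e1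
  have e2 : T j ≤ N := by
    obtain ⟨i, rfl⟩ : ∃ i, j = i + 1 := ⟨j - 1, by omega⟩
    exact not_lt.mp (Nat.find_min (hk N) (by omega))
  have e3 : (T j : ℝ) ≤ N := by exact_mod_cast e2
  have e4 : (N : ℝ) ≤ T (j + 1) := by exact_mod_cast e1.le
  have e5 : (0 : ℝ) < j := by exact_mod_cast hN
  have e6 : ‖∑ n ∈ range N, x n‖ ≤ ‖∑ n ∈ range (T j), x n‖ + C * (j + 1) := by
    rw [← sum_range_add_sum_Ico _ e2]
    refine (norm_add_le _ _).trans (add_le_add_right ((norm_sum_le_of_le _ fun n _ => hx n).trans ?_) _)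
    simp only [sum_const, Nat.card_Ico, nsmul_eq_mul, mul_one, Nat.cast_sub e2]
    linarith [h2 j]
  rw [norm_div, Complex.norm_natCast, div_div]
  exact div_le_div₀ ((norm_nonneg _).trans e6) e6 (by positivity) (by linarith [h1 j])

theorem not_ud (T : ℕ → ℕ) (hT : Monotone T) {C δ γ : ℝ} (hC : 0 < C)
    (h2 : ∀ k : ℕ, 1 ≤ k → (T k : ℝ) ≤ C * k ^ 2) (u : ℕ → ℝ) (h0 : 0 ≤ δ) (h1 : δ ≤ 1)
    (hδ : 4 * C * δ < γ) (h : ∃ᶠ j in atTop, ∀ k : ℕ, 2 ^ j ≤ k → k < 2 ^ (j + 1) →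
      γ * k - 1 ≤ (((Ico (T k) (T (k + 1))).filter fun n => Int.fract (u n) < δ).card : ℝ)) :
    ¬ UD u := by
  intro hu
  obtain ⟨δ', d1, d2⟩ := exists_between ((lt_div_iff₀' (by positivity)).mpr hδ)
  rw [lt_div_iff₀' (by positivity)] at d2
  have hγ : 0 < γ := lt_of_le_of_lt (by positivity) hδ
  let cnt : ℕ → ℝ := fun N => (((range N).filter fun n => Int.fract (u n) < δ).card : ℝ)
  obtain ⟨N0, hN0⟩ := eventually_atTop.mp ((tendsto_order.mp (hu 0 δ le_rfl h0 h1)).2 δ'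
    (by simpa using d1))
  have c1 : ∀ N : ℕ, cnt N ≤ δ' * N + N0 := by
    intro N
    have hd : 0 ≤ δ' * N := mul_nonneg (h0.trans d1.le) (Nat.cast_nonneg N)
    rcases lt_or_ge N (N0 + 1) with hN | hN
    · have : cnt N ≤ N := by
        simpa [cnt] using card_filter_le (range N) fun n => Int.fract (u n) < δ
      have h3 : (N : ℝ) ≤ N0 := by exact_mod_cast Nat.lt_succ_iff.mp hN
      linarith
    · have := hN0 N (by omega)
      rw [div_lt_iff₀ (by exact_mod_cast (by omega : 0 < N))] at this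
      simp only [Int.fract_nonneg, true_and] at this
      have h3 : (0 : ℝ) ≤ N0 := Nat.cast_nonneg _
      linarith
  have c2 : ∀ k, cnt (T (k + 1)) = cnt (T k) +
      (((Ico (T k) (T (k + 1))).filter fun n => Int.fract (u n) < δ).card : ℝ) := by
    intro k
    simp only [cnt, card_filter]
    exact_mod_cast (sum_range_add_sum_Ico _ (hT k.le_succ)).symm
  have ev : ∀ᶠ j : ℕ in atTop, (1 + N0) / (γ - 4 * C * δ') < ((2 ^ j : ℕ) : ℝ) :=
    (tendsto_natCast_atTop_atTop.comp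
      (tendsto_pow_atTop_atTop_of_one_lt one_lt_two)).eventually_gt_atTop _
  obtain ⟨j, hj, hw⟩ := (h.and_eventually ev).exists
  rw [pow_succ] at hj
  have w1 : 1 ≤ 2 ^ j := Nat.one_le_two_pow
  generalize 2 ^ j = w at hj hw w1
  have c3 : ∀ i : ℕ, i ≤ w → i * (γ * w - 1) ≤ cnt (T (w + i)) := by
    intro i
    induction i with
    | zero => intro _; simp [cnt]
    | succ i ih =>
      intro hi
      have := hj (w + i) (by omega) (by omega)
      rw [← add_assoc, c2]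
      push_cast at this ⊢
      nlinarith [ih (by omega), mul_nonneg hγ.le (Nat.cast_nonneg (α := ℝ) i)]
  have c4 := (c3 w le_rfl).trans (c1 _)
  have c5 := h2 (w + w) (by omega)
  have w2 : (1 : ℝ) ≤ w := by exact_mod_cast w1
  rw [div_lt_iff₀ (by linarith)] at hw
  push_cast at c5
  have c6 : δ' * T (w + w) ≤ δ' * (C * (w + w) ^ 2) := by gcongr; exact h0.trans d1.le
  have h3 : (0 : ℝ) ≤ N0 := Nat.cast_nonneg _
  nlinarith [mul_lt_mul_of_pos_left hw (by linarith : (0 : ℝ) < w)]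

end Pool.Agent.H.MP_0447a2_lc
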