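import Pool.Agent.H.MP_0447a2_lc.B

set_option autoImplicit false

namespace Pool.Agent.H.MP_0447a2_lc
open Finset Filter Topology Real Pool.Agent.H.MP_f44585_an

noncomputable def io (α s : ℝ) : ℕ := ⌈s / log |α|⌉₊

variable {α : ℝ}

theorem io_ge (α s : ℝ) : s / log |α| ≤ io α s := Nat.le_ceil _

theorem io_lt (h : 1 < |α|) {s : ℝ} (hs : 0 ≤ s) : (io α s : ℝ) < s / log |α| + 1 :=
  Nat.ceil_lt_add_one (div_nonneg hs (log_pos h).le)

theorem pow_eq (h : 1 < |α|) (n : ℕ) : |α| ^ n = exp (n * log |α|) := by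
  rw [exp_nat_mul, exp_log (by linarith)]

theorem io1 (h : 1 < |α|) (s : ℝ) : exp s ≤ |α| ^ io α s := by
  rw [pow_eq h, exp_le_exp, ← div_le_iff₀ (log_pos h)]
  exact io_ge α s

theorem io2 (h : 1 < |α|) {s : ℝ} {n : ℕ} (hn : n < io α s) : |α| ^ n < exp s := by
  rw [pow_eq h, exp_lt_exp, ← lt_div_iff₀ (log_pos h)]
  exact Nat.lt_ceil.mp hn

theorem io_mono (h : 1 < |α|) {s s' : ℝ} (hs : s ≤ s') : io α s ≤ io α s' :=
  Nat.ceil_mono (div_le_div_of_nonneg_right hs (log_pos h).le)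

theorem io_len (h : 1 < |α|) {s s' : ℝ} (h0 : 0 ≤ s) (hs : s ≤ s') :
    ((Ico (io α s) (io α s')).card : ℝ) ≤ (s' - s) / log |α| + 1 := by
  rw [Nat.card_Ico, Nat.cast_sub (io_mono h hs), sub_div]
  linarith [io_ge α s, io_lt h (h0.trans hs)]

noncomputable def KK (α : ℝ) : ℝ := |α| / (|α| - 1)

theorem KK_pos (h : 1 < |α|) : 0 < KK α := div_pos (by linarith) (by linarith)

theorem geo1 (h : 1 < |α|) (n0 n1 : ℕ) :
    ∑ n ∈ Ico n0 n1, (|α| ^ n)⁻¹ ≤ KK α * (|α| ^ n0)⁻¹ := by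
  have h0 : 0 < |α| := by linarith
  have := geom_sum_Ico_le_of_lt_one (m := n0) (n := n1) (inv_pos.mpr h0).le
    (inv_lt_one_of_one_lt₀ h)
  simp only [inv_pow] at this
  refine this.trans (le_of_eq ?_)
  have h1 : |α| - 1 ≠ 0 := by linarith
  unfold KK
  field_simp

theorem geo2 (h : 1 < |α|) (n0 : ℕ) (s : ℝ) :
    ∑ n ∈ Ico n0 (io α s), |α| ^ n ≤ KK α * exp s := by
  refine (sum_le_sum_of_subset_of_nonneg (t := range (io α s)) (fun n hn => mem_range.mpr
    (mem_Ico.mp hn).2) fun _ _ _ => by positivity).trans ?_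
  rcases Nat.eq_zero_or_pos (io α s) with h0 | h0
  · rw [h0, sum_range_zero]
    exact (mul_pos (KK_pos h) (exp_pos s)).le
  obtain ⟨j, hj⟩ : ∃ j, io α s = j + 1 := ⟨_, (Nat.sub_add_cancel h0).symm⟩
  have := io2 h (n := j) (s := s) (by omega)
  rw [hj, geom_sum_eq h.ne', KK, div_mul_eq_mul_div, pow_succ]
  refine div_le_div_of_nonneg_right ?_ (by linarith)
  nlinarith

noncomputable def SS (α : ℝ) (h : ℕ) (s s' t : ℝ) : ℂ :=
  ∑ n ∈ Ico (io α s) (io α s'), ee (h * (t * α ^ n))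

theorem SS_lip (h1 : 1 < |α|) (h : ℕ) (s s' : ℝ) {t t' c : ℝ} (ht : |t - t'| ≤ c * exp (-s')) :
    ‖SS α h s s' t‖ ≤ ‖SS α h s s' t'‖ + 7 * h * KK α * c := by
  refine (norm_le_norm_add_norm_sub' _ _).trans (add_le_add_right ?_ _)
  rw [SS, SS, ← sum_sub_distrib]
  refine (norm_sum_le_of_le _ (n := fun n => 7 * h * (c * exp (-s')) * |α| ^ n)
    fun n _ => (ee_sub _ _).trans ?_).trans ?_
  · rw [← mul_sub, ← sub_mul, abs_mul, abs_mul, abs_pow, Nat.abs_cast]
    have : |t - t'| * |α| ^ n ≤ c * exp (-s') * |α| ^ n := by gcongr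
    nlinarith [mul_le_mul_of_nonneg_left this (Nat.cast_nonneg (α := ℝ) h)]
  · rw [← mul_sum]
    have h2 : 0 ≤ c * exp (-s') := (abs_nonneg _).trans ht
    refine (mul_le_mul_of_nonneg_left (geo2 h1 _ s') (by positivity)).trans (le_of_eq ?_)
    rw [exp_neg]
    field_simp

theorem SS_triv (h1 : 1 < |α|) (h : ℕ) {s s' : ℝ} (h0 : 0 ≤ s) (hs : s ≤ s') (t : ℝ) :
    ‖SS α h s s' t‖ ≤ (s' - s) / log |α| + 1 :=
  (norm_sum_le_of_le _ fun n _ => (ee_norm _).le).trans (by simpa using io_len h1 h0 hs)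

theorem SS_add (h1 : 1 < |α|) (h : ℕ) {s s' s'' : ℝ} (hs : s ≤ s') (hs' : s' ≤ s'') (t : ℝ) :
    SS α h s s'' t = SS α h s s' t + SS α h s' s'' t :=
  (sum_Ico_consecutive _ (io_mono h1 hs) (io_mono h1 hs')).symm

theorem normsq {ι : Type} (I : Finset ι) (x : ι → ℝ) :
    ((‖∑ n ∈ I, ee (x n)‖ ^ 2 : ℝ) : ℂ) = ∑ n ∈ I, ∑ m ∈ I, ee (x n - x m) := by
  rw [Complex.ofReal_pow, ← Complex.mul_conj', map_sum, sum_mul_sum]
  simp only [ee_conj, ← ee_add, sub_eq_add_neg]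

@[fun_prop]
theorem ee_cont : Continuous ee := by unfold ee; fun_prop

theorem int_ee {c : ℝ} (hc : c ≠ 0) (a b : ℝ) : ‖∫ t in a..b, ee (c * t)‖ ≤ |c|⁻¹ := by
  have e : ∀ t : ℝ, ee (c * t) = Complex.exp ((Complex.I * (2 * π * c : ℝ)) * t) := fun t => by
    unfold ee; congr 1; push_cast; ring
  have h0 : (Complex.I * (2 * π * c : ℝ)) ≠ 0 :=
    mul_ne_zero Complex.I_ne_zero (by exact_mod_cast mul_ne_zero two_pi_pos.ne' hc)
  simp only [e]
  rw [integral_exp_mul_complex h0, ← e, ← e, norm_div, norm_mul, Complex.norm_I, one_mul,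
    Complex.norm_real, Real.norm_eq_abs, abs_mul, abs_of_pos two_pi_pos,
    div_le_iff₀ (by positivity)]
  refine (norm_sub_le _ _).trans ?_
  rw [ee_norm, ee_norm, mul_comm, mul_assoc, mul_inv_cancel₀ (abs_ne_zero.mpr hc)]
  linarith [pi_gt_three]

theorem pow_gap (h1 : 1 < |α|) {n m : ℕ} (h : n ≠ m) : |α| ^ n ≤ KK α * |α ^ n - α ^ m| := by
  have key : ∀ n m : ℕ, m < n → |α| ^ n ≤ KK α * |α ^ n - α ^ m| := by
    intro n m h
    obtain ⟨j, rfl⟩ : ∃ j, n = j + 1 := ⟨n - 1, by omega⟩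
    have h2 := abs_sub_abs_le_abs_sub (α ^ (j + 1)) (α ^ m)
    have h3 : |α| ^ m ≤ |α| ^ j := pow_le_pow_right₀ h1.le (by omega)
    rw [abs_pow, abs_pow] at h2
    rw [KK, div_mul_eq_mul_div, le_div_iff₀ (by linarith), pow_succ] at *
    nlinarith [pow_pos (by linarith : 0 < |α|) j]
  rcases lt_or_gt_of_ne h with h | h
  · rw [abs_sub_comm]
    exact (pow_le_pow_right₀ h1.le h.le).trans (key m n h)
  · exact key n m h

theorem SS_cont (α : ℝ) (h : ℕ) (s s' : ℝ) : Continuous (SS α h s s') :=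
  continuous_finset_sum _ fun n _ => ee_cont.comp (by fun_prop)

theorem l2 (h1 : 1 < |α|) {h : ℕ} (hh : 1 ≤ h) (s s' p : ℝ) :
    ∫ t in p..p + exp (-s), ‖SS α h s s' t‖ ^ 2 ≤
      exp (-s) * ((Ico (io α s) (io α s')).card * (1 + KK α ^ 2)) := by
  have hK := KK_pos h1
  have hh' : (1 : ℝ) ≤ h := by exact_mod_cast hh
  refine (le_abs_self _).trans ?_
  rw [← Real.norm_eq_abs, ← Complex.norm_real, ← intervalIntegral.integral_ofReal]
  simp only [SS, normsq]
  rw [intervalIntegral.integral_finset_sum fun n _ => Continuous.intervalIntegrable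
    (by fun_prop) _ _]
  set I := Ico (io α s) (io α s')
  refine (norm_sum_le_of_le _ (n := fun n => exp (-s) + I.card * (KK α * (|α| ^ n)⁻¹))
    fun n hn => ?_).trans ?_
  · rw [intervalIntegral.integral_finset_sum fun m _ => Continuous.intervalIntegrable
      (by fun_prop) _ _]
    refine (norm_sum_le_of_le _ (n := fun m => (if n = m then exp (-s) else 0) +
      KK α * (|α| ^ n)⁻¹) fun m _ => ?_).trans ?_
    · have h0 : 0 ≤ KK α * (|α| ^ n)⁻¹ := by positivity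
      split_ifs with hnm
      · subst hnm
        simp only [sub_self, ee_zero, intervalIntegral.integral_const, add_sub_cancel_left,
          norm_smul, norm_one, mul_one, Real.norm_eq_abs, abs_exp]
        linarith
      · have h2 := pow_gap h1 hnm
        have h3 : 0 < |α| ^ n := by positivity
        have h4 : 0 < |α ^ n - α ^ m| := (mul_pos_iff_of_pos_left hK).mp (h3.trans_le h2)
        have e : ∀ t : ℝ, h * (t * α ^ n) - h * (t * α ^ m) = (h * (α ^ n - α ^ m)) * t :=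
          fun t => by ring
        simp only [e]
        refine (int_ee (mul_ne_zero (by linarith) (abs_pos.mp h4)) _ _).trans ?_
        rw [abs_mul, Nat.abs_cast, zero_add, ← div_eq_mul_inv, inv_eq_one_div,
          div_le_div_iff₀ (by positivity) h3]
        nlinarith [mul_pos hK h4]
    · rw [sum_add_distrib, sum_ite_eq, if_pos hn, sum_const, nsmul_eq_mul]
  · rw [sum_add_distrib, sum_const, nsmul_eq_mul, ← mul_sum, ← mul_sum]
    have h2 : (|α| ^ io α s)⁻¹ ≤ exp (-s) := by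
      rw [exp_neg]
      exact inv_anti₀ (exp_pos s) (io1 h1 s)
    have h3 : ∑ n ∈ I, (|α| ^ n)⁻¹ ≤ KK α * exp (-s) :=
      (geo1 h1 _ _).trans (mul_le_mul_of_nonneg_left h2 hK.le)
    have h4 : (I.card : ℝ) * (KK α * ∑ n ∈ I, (|α| ^ n)⁻¹) ≤ I.card * (KK α * (KK α * exp (-s))) := by
      gcongr
    nlinarith

theorem pick {ι : Type} (I : Finset ι) (g : ι → ℝ → ℂ) (hg : ∀ i, Continuous (g i)) {p l V : ℝ}
    (hl : 0 < l) (h : ∀ i ∈ I, ∫ t in p..p + l, ‖g i t‖ ^ 2 ≤ l * V) :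
    ∃ t, p ≤ t ∧ t ≤ p + l ∧ ∀ i ∈ I, ‖g i t‖ ^ 2 ≤ I.card * V := by
  have hc : Continuous fun t => ∑ i ∈ I, ‖g i t‖ ^ 2 := by fun_prop
  obtain ⟨t, ht, hm⟩ := (isCompact_Icc (a := p) (b := p + l)).exists_isMinOn
    ⟨p, le_rfl, by linarith⟩ hc.continuousOn
  refine ⟨t, ht.1, ht.2, fun i hi => (single_le_sum (f := fun i => ‖g i t‖ ^ 2)
    (fun _ _ => by positivity) hi).trans ?_⟩
  have h1 := intervalIntegral.integral_mono_on (μ := MeasureTheory.volume) (by linarith : p ≤ p + l)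
    intervalIntegrable_const (hc.intervalIntegrable _ _) fun x hx => hm hx
  rw [intervalIntegral.integral_finset_sum fun i _ =>
    (by fun_prop : Continuous fun t => ‖g i t‖ ^ 2).intervalIntegrable _ _] at h1
  have h2 := (sum_le_sum h)
  simp only [intervalIntegral.integral_const, add_sub_cancel_left, smul_eq_mul, sum_const,
    nsmul_eq_mul] at h1 h2
  refine le_of_mul_le_mul_left ?_ hl
  nlinarith

theorem rand {α β : ℝ} (h1 : 1 < |α|) (h2 : 1 < |β|) : ∃ C : ℝ, ∀ (H : ℕ) (s s' : ℝ), 0 ≤ s →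
    s ≤ s' → Step (exp (-s)) (exp (-s')) fun t => ∀ h, 1 ≤ h → h ≤ H →
      ‖SS α h s s' t‖ ≤ √(C * H * (s' - s + 1)) + C * H ∧
      ‖SS β h s s' t‖ ≤ √(C * H * (s' - s + 1)) + C * H := by
  let γ : Bool → ℝ := fun b => if b = true then α else β
  have hγ : ∀ b, 1 < |γ b| := fun b => by cases b <;> assumption
  obtain ⟨C, hC⟩ : ∃ C : ℝ, ∀ b, 2 * ((1 / log |γ b| + 1) * (1 + KK (γ b) ^ 2)) ≤ C ∧
      7 * KK (γ b) ≤ C := by
    obtain ⟨C, hC⟩ := (Set.finite_range fun b =>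
      max (2 * ((1 / log |γ b| + 1) * (1 + KK (γ b) ^ 2))) (7 * KK (γ b))).bddAbove
    exact ⟨C, fun b => max_le_iff.mp (hC ⟨b, rfl⟩)⟩
  refine ⟨C, fun H s s' h0 hs p => ?_⟩
  obtain ⟨t0, t1, t2, t3⟩ := pick (Icc 1 H ×ˢ (univ : Finset Bool))
    (fun i => SS (γ i.2) i.1 s s') (fun i => SS_cont _ _ _ _) (p := p) (exp_pos (-s))
    (V := C / 2 * (s' - s + 1)) fun i hi => by
      refine (l2 (hγ _) (mem_Icc.mp (mem_product.mp hi).1).1 s s' p).trans
        (mul_le_mul_of_nonneg_left ?_ (exp_pos _).le)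
      have e1 := io_len (hγ i.2) h0 hs
      have e2 := log_pos (hγ i.2)
      have e3 : (s' - s) / log |γ i.2| + 1 ≤ (1 / log |γ i.2| + 1) * (s' - s + 1) := by
        have : 0 < 1 / log |γ i.2| := by positivity
        rw [div_eq_mul_one_div]
        nlinarith
      have e4 := (hC i.2).1
      calc _ ≤ (1 / log |γ i.2| + 1) * (s' - s + 1) * (1 + KK (γ i.2) ^ 2) := by
            gcongr; exact e1.trans e3
        _ ≤ _ := by nlinarith
  have hl : exp (-s') ≤ exp (-s) := exp_le_exp.mpr (by linarith)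
  refine ⟨min t0 (p + exp (-s) - exp (-s')), le_min t1 (by linarith), by
    linarith [min_le_right t0 (p + exp (-s) - exp (-s'))], fun t a b h hh hH => ?_⟩
  have hd : |t - t0| ≤ 1 * exp (-s') := by
    rw [one_mul, abs_le]
    constructor
    · rcases min_choice t0 (p + exp (-s) - exp (-s')) with e | e <;> rw [e] at a <;>
        linarith [exp_pos (-s')]
    · linarith [min_le_left t0 (p + exp (-s) - exp (-s'))]
  have key : ∀ b, ‖SS (γ b) h s s' t‖ ≤ √(C * H * (s' - s + 1)) + C * H := by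
    intro b
    refine (SS_lip (hγ b) h s s' hd).trans (add_le_add (le_sqrt_of_sq_le ?_) ?_)
    · refine (t3 (h, b) (by simp [hh, hH])).trans (le_of_eq ?_)
      simp only [card_product, Nat.card_Icc, card_univ, Fintype.card_bool]
      push_cast [Nat.add_sub_cancel]
      ring
    · have e1 : (h : ℝ) ≤ H := by exact_mod_cast hH
      have e2 := KK_pos (hγ b)
      have e3 := (hC b).2
      have e4 : (0 : ℝ) ≤ h := Nat.cast_nonneg h
      nlinarith
  exact ⟨key true, key false⟩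

theorem one_step {l lam γ : ℝ} (h0 : 0 ≤ γ) (h1 : γ < 1) (hl : lam ≠ 0) (h2 : 2 ≤ l * |lam|) :
    Step l (γ * |lam|⁻¹) fun t => Int.fract (t * lam) ≤ γ := by
  intro p
  have fr : ∀ (z : ℤ) (x : ℝ), z ≤ x → x ≤ z + γ → Int.fract x ≤ γ := fun z x a b => by
    have : ⌊x⌋ = z := Int.floor_eq_iff.mpr ⟨a, by linarith⟩
    rw [Int.fract, this]
    linarith
  rcases lt_or_gt_of_ne hl with h | h
  · rw [abs_of_neg h] at h2 ⊢
    obtain ⟨μ, rfl⟩ : ∃ μ, lam = -μ := ⟨-lam, by ring⟩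
    rw [neg_neg] at h2 ⊢
    have hμ : 0 < μ := by linarith
    have e1 := Int.le_ceil (p * μ + γ)
    have e2 := Int.ceil_lt_add_one (p * μ + γ)
    refine ⟨(⌈p * μ + γ⌉ - γ) / μ, by rw [le_div_iff₀ hμ]; linarith, ?_, fun t a b => ?_⟩
    · rw [← div_eq_mul_inv, ← add_div, div_le_iff₀ hμ]; linarith
    · rw [← div_eq_mul_inv, ← add_div, le_div_iff₀ hμ] at b
      rw [div_le_iff₀ hμ] at a
      exact fr (-⌈p * μ + γ⌉) _ (by push_cast; linarith) (by push_cast; linarith)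
  · rw [abs_of_pos h] at h2 ⊢
    have e1 := Int.le_ceil (p * lam)
    have e2 := Int.ceil_lt_add_one (p * lam)
    refine ⟨⌈p * lam⌉ / lam, by rw [le_div_iff₀ h]; linarith, ?_, fun t a b => ?_⟩
    · rw [← div_eq_mul_inv, ← add_div, div_le_iff₀ h]; linarith
    · rw [← div_eq_mul_inv, ← add_div, le_div_iff₀ h] at b
      rw [div_le_iff₀ h] at a
      exact fr _ _ a b

theorem bias0 (hα : 1 < |α|) {γ : ℝ} (h0 : 0 ≤ γ) (h1 : γ < 1) {L : ℕ} (h2 : 2 ≤ γ * |α| ^ L)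
    (n r : ℕ) : Step (γ * (|α| ^ n)⁻¹) (γ * (|α| ^ (n + r * L))⁻¹)
      fun t => ∀ j, j < r → Int.fract (t * α ^ (n + (j + 1) * L)) ≤ γ := by
  have hp : 0 < |α| := by linarith
  induction r with
  | zero => exact fun p => ⟨p, le_rfl, by simp, fun t _ _ j hj => absurd hj (by omega)⟩
  | succ r ih =>
    refine (ih.comp (one_step h0 h1 (lam := α ^ (n + (r + 1) * L))
      (pow_ne_zero _ (abs_pos.mp hp)) (h2.trans (le_of_eq ?_)))).mono le_rfl
        (by rw [abs_pow]) fun t h j hj => ?_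
    · rw [abs_pow, add_mul, one_mul, ← add_assoc, pow_add _ _ L]
      field_simp
    · rcases Nat.lt_succ_iff_lt_or_eq.mp hj with hj | rfl
      exacts [h.1 j hj, h.2]

theorem bias (hα : 1 < |α|) {γ : ℝ} (h0 : 0 ≤ γ) (h1 : γ < 1) {L : ℕ} (h2 : 2 ≤ γ * |α| ^ L)
    {s : ℝ} (hs : 0 ≤ s) (r : ℕ) :
    Step (exp (-s)) (exp (-(s + ((r + 1) * L + 1) * log |α|)))
      fun t => ∀ j, j < r → Int.fract (t * α ^ (io α s + (j + 1) * L)) ≤ γ := by
  have hp : 0 < |α| := by linarith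
  refine (bias0 hα h0 h1 h2 (io α s) r).mono ?_ ?_ fun _ h => h
  · rw [exp_neg]
    have := inv_anti₀ (exp_pos s) (io1 hα s)
    have : 0 < (|α| ^ io α s)⁻¹ := by positivity
    nlinarith
  · have e1 := io_lt hα hs
    rw [div_add_one (log_pos hα).ne', lt_div_iff₀ (log_pos hα)] at e1
    have e2 : exp (-(s + ((r + 1) * L + 1) * log |α|)) ≤ (|α| ^ (io α s + r * L + L))⁻¹ := by
      rw [pow_eq hα, ← exp_neg, exp_le_exp]
      push_cast
      nlinarith
    refine e2.trans ?_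
    rw [pow_add _ _ L, mul_inv, mul_comm]
    gcongr
    rw [inv_le_iff_one_le_mul₀ (by positivity)]
    linarith

theorem hits {u : ℕ → ℝ} {δ : ℝ} {n0 n1 T0 L r : ℕ} (hL : 0 < L) (h0 : T0 ≤ n0)
    (h1 : n0 + r * L < n1) (h : ∀ j, j < r → Int.fract (u (n0 + (j + 1) * L)) < δ) :
    (r : ℝ) ≤ (((Ico T0 n1).filter fun n => Int.fract (u n) < δ).card : ℝ) := by
  have := card_le_card_of_injOn (s := range r)
    (t := (Ico T0 n1).filter fun n => Int.fract (u n) < δ) (fun j => n0 + (j + 1) * L)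
    (fun j hj => by
      have hj' := mem_range.mp hj
      have : (j + 1) * L ≤ r * L := Nat.mul_le_mul_right _ hj'
      simp only [coe_filter, mem_Ico, Set.mem_setOf_eq]
      exact ⟨⟨by omega, by omega⟩, h j hj'⟩)
    fun i _ j _ hij => by
      have := Nat.eq_of_mul_eq_mul_right hL (Nat.add_left_cancel hij)
      omega
  rw [card_range] at this
  exact_mod_cast this

end Pool.Agent.H.MP_0447a2_lc
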