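import Pool.Agent.H.MP_0447a2_lc.C

set_option autoImplicit false

namespace Pool.Agent.H.MP_0447a2_lc
open Finset Filter Topology Real Asymptotics Pool.Agent.H.MP_f44585_an

variable {α : ℝ}

noncomputable def TT (α : ℝ) (k : ℕ) : ℕ := io α ((k : ℝ) ^ 2)

theorem TT_mono (h : 1 < |α|) : Monotone (TT α) := fun a b hab =>
  io_mono h (by gcongr)

def Hit (α δ γ : ℝ) (k : ℕ) (t : ℝ) : Prop :=
  γ * k - 1 ≤ (((Ico (TT α k) (TT α (k + 1))).filter fun n => Int.fract (t * α ^ n) < δ).card : ℝ)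

theorem ud (h : 1 < |α|) {e : ℕ → ℝ} (he : Tendsto e atTop (𝓝 0)) {g : ℕ → ℕ}
    (hg : Tendsto g atTop atTop) {t : ℝ} (hb : ∀ᶠ k : ℕ in atTop, ∀ j, 1 ≤ j → j ≤ g k →
      ‖SS α j (k ^ 2) ((k + 1 : ℕ) ^ 2) t‖ ≤ e k * (k + 1)) : UD fun n => t * α ^ n := by
  have hl := log_pos h
  refine ud_of_ws fun j hj => ces (TT α) (TT_mono h) (c := 1 / log |α|) (C := 2 / log |α| + 1)
    (by positivity) (fun k => ?_) (fun k => ?_) _ (fun n => (ee_norm _).le) ?_
  · rw [one_div_mul_eq_div]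
    exact io_ge α _
  · have e1 := io_len h (s := (k : ℝ) ^ 2) (s' := ((k + 1 : ℕ) : ℝ) ^ 2) (by positivity)
      (by gcongr; omega)
    rw [Nat.card_Ico, Nat.cast_sub (io_mono h (by gcongr; omega))] at e1
    have e2 : (((k + 1 : ℕ) : ℝ) ^ 2 - (k : ℝ) ^ 2) / log |α| ≤ 2 / log |α| * (k + 1) := by
      rw [div_mul_eq_mul_div]
      gcongr
      push_cast
      nlinarith
    have e3 : (0 : ℝ) ≤ k := Nat.cast_nonneg k
    unfold TT
    nlinarith
  · refine IsLittleO.of_bound fun c hc => ?_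
    filter_upwards [hb, hg.eventually_ge_atTop j, (tendsto_order.mp he).2 c hc] with k h1 h2 h3
    rw [Real.norm_of_nonneg (by positivity)]
    exact (h1 j hj h2).trans (by gcongr)

def Par (α : ℝ) (m L : ℕ) (γ : ℝ) : Prop :=
  0 < L ∧ 0 < γ ∧ γ < 1 / 2 ∧ 4 ≤ γ * |α| ^ L ∧
    4 * (1 / log |α| + 1) * (2 * γ) < 1 / ((m + 2) * L * log |α|)

theorem par (h : 1 < |α|) (m : ℕ) : ∃ L γ, Par α m L γ := by
  have hl := log_pos h
  set c : ℝ := 16 * (m + 2) * (1 + log |α|) with hc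
  have c1 : 16 ≤ c := by
    have : (0 : ℝ) ≤ m := Nat.cast_nonneg m
    nlinarith [mul_nonneg this hl.le]
  have := (tendsto_order.mp (tendsto_pow_const_div_const_pow_of_one_lt 1 h)).2 (1 / (4 * c))
    (by positivity)
  obtain ⟨L, h1, h2⟩ := (this.and (eventually_ge_atTop 1)).exists
  have h3 : (1 : ℝ) ≤ L := by exact_mod_cast h2
  rw [pow_one, div_lt_div_iff₀ (by positivity) (by positivity)] at h1
  refine ⟨L, 1 / (c * L), h2, by positivity, ?_, ?_, ?_⟩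
  · rw [div_lt_div_iff₀ (by positivity) two_pos]
    nlinarith
  · rw [one_div_mul_eq_div, le_div_iff₀ (by positivity)]
    nlinarith
  · have : 4 * (1 / log |α| + 1) * (2 * (1 / (c * L))) = 1 / ((m + 2) * L * log |α|) / 2 := by
      rw [hc]
      field_simp
      ring
    rw [this]
    exact half_lt_self (by positivity)

theorem nud (h : 1 < |α|) {lev g : ℕ → ℕ} (hg : Tendsto g atTop atTop)
    (hlev : ¬ Tendsto lev atTop atTop) {L : ℕ → ℕ} {γ : ℕ → ℝ} (hp : ∀ m, Par α m (L m) (γ m))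
    {t : ℝ} (hb : ∀ᶠ k : ℕ in atTop, ∀ m, m = min (lev (Nat.log 2 k)) (g k) →
      Hit α (2 * γ m) (1 / ((m + 2) * L m * log |α|)) k t) : ¬ UD fun n => t * α ^ n := by
  have hl := log_pos h
  obtain ⟨m, hm⟩ : ∃ m, ∃ᶠ j in atTop, lev j = m := by
    by_contra hc
    push Not at hc
    refine hlev (tendsto_atTop.mpr fun b => ?_)
    filter_upwards [(eventually_all_finset (range b)).mpr fun m _ => hc m] with j hj
    by_contra h1
    exact hj _ (mem_range.mpr (not_le.mp h1)) rfl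
  obtain ⟨-, p1, p2, -, p3⟩ := hp m
  obtain ⟨K, hK⟩ := eventually_atTop.mp (hb.and (hg.eventually_ge_atTop m))
  refine not_ud (TT α) (TT_mono h) (C := 1 / log |α| + 1) (by positivity) (fun k hk => ?_) _
    (by positivity) (by linarith) p3 ((hm.and_eventually (eventually_ge_atTop K)).mono ?_)
  · have e1 := io_lt h (s := (k : ℝ) ^ 2) (by positivity)
    have e2 : (1 : ℝ) ≤ k := by exact_mod_cast hk
    rw [add_mul, one_div_mul_eq_div]
    unfold TT
    nlinarith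
  · rintro j ⟨h1, h2⟩ k h3 h4
    have e1 : Nat.log 2 k = j := Nat.log_eq_of_pow_le_of_lt_pow h3 h4
    have e2 := hK k (h2.trans (Nat.lt_two_pow_self.le.trans h3))
    exact e2.1 m (by rw [e1, h1, min_eq_left e2.2])

theorem arith (h : 1 < |α|) (m : ℕ) {L : ℕ} (hL : 0 < L) : ∀ᶠ k : ℕ in atTop, ∃ r : ℕ,
    (r : ℝ) ≤ k / log |α| ∧ ((r + 1) * L + 2) * log |α| ≤ 2 * k / (m + 2) ∧
    ∀ (s δ t : ℝ) (n : ℕ), (k : ℝ) ^ 2 ≤ s → s ≤ k ^ 2 + k → io α s ≤ n → n ≤ io α s + 1 →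
      (∀ j, j < r → Int.fract (t * α ^ (n + (j + 1) * L)) < δ) →
      Hit α δ (1 / ((m + 2) * L * log |α|)) k t := by
  have hl := log_pos h
  have hL' : (1 : ℝ) ≤ L := by exact_mod_cast hL
  have hm : (0 : ℝ) ≤ m := Nat.cast_nonneg m
  filter_upwards [tendsto_natCast_atTop_atTop.eventually_ge_atTop ((L + 2) * log |α| * (m + 2))]
    with k hk
  have hk0 : (0 : ℝ) ≤ k := Nat.cast_nonneg k
  have e1 := Nat.floor_le (a := k / ((m + 2) * L * log |α|)) (by positivity)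
  have e2 := Nat.lt_floor_add_one (k / ((m + 2) * L * log |α|))
  generalize ⌊k / ((m + 2) * L * log |α|)⌋₊ = r at e1 e2
  have e3 : ((r + 1) * L + 2) * log |α| ≤ 2 * k / (m + 2) := by
    rw [le_div_iff₀ (by positivity)] at e1 ⊢
    nlinarith
  refine ⟨r, e1.trans ?_, e3, fun s δ t n s1 s2 n1 n2 hr => ?_⟩
  · refine div_le_div_of_nonneg_left hk0 hl (le_mul_of_one_le_left hl.le ?_)
    nlinarith
  refine le_trans ?_ (hits (u := fun n => t * α ^ n) hL ((io_mono h s1).trans n1) ?_ hr)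
  · rw [one_div_mul_eq_div]
    linarith
  · have e4 := io_ge α (((k + 1 : ℕ) : ℝ) ^ 2)
    have e5 := io_lt h (s := s) (le_trans (by positivity) s1)
    have e6 : 2 * (k : ℝ) / (m + 2) ≤ k := by
      rw [div_le_iff₀ (by positivity)]
      nlinarith
    have e7 : s / log |α| + ((r + 1) * L + 2) ≤ ((k + 1 : ℕ) : ℝ) ^ 2 / log |α| := by
      rw [div_add' _ _ _ hl.ne']
      gcongr
      push_cast
      nlinarith
    have e8 : (n : ℝ) ≤ io α s + 1 := by exact_mod_cast n2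
    have : ((n + r * L : ℕ) : ℝ) < TT α (k + 1) := by
      unfold TT
      push_cast at e4 e7 ⊢
      nlinarith
    exact_mod_cast this

theorem small (C : ℝ) (H : ℕ) : ∀ᶠ k : ℕ in atTop, ∀ d : ℝ, 0 ≤ d → d ≤ 2 * k + 1 →
    √(C * H * (d + 1)) + C * H + 2 ≤ (k + 1) / (H + 1) := by
  have h0 : (0 : ℝ) < H + 1 := by positivity
  filter_upwards [tendsto_natCast_atTop_atTop.eventually_ge_atTop (8 * (|C| * H) * (H + 1) ^ 2),
    tendsto_natCast_atTop_atTop.eventually_ge_atTop (2 * (C * H + 2) * (H + 1))] with k h1 h2 d hd0 hd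
  have hk0 : (0 : ℝ) ≤ k := Nat.cast_nonneg k
  have e1 : √(C * H * (d + 1)) ≤ (k + 1) / (H + 1) / 2 := by
    refine sqrt_le_iff.mpr ⟨by positivity, ?_⟩
    rw [div_div, div_pow, le_div_iff₀ (by positivity)]
    calc C * H * (d + 1) * ((H + 1) * 2) ^ 2 ≤ |C| * H * (2 * k + 2) * ((H + 1) * 2) ^ 2 := by
          have a1 : C * H ≤ |C| * H := by gcongr; exact le_abs_self C
          have a2 : C * H * (d + 1) ≤ |C| * H * (2 * k + 2) :=
            mul_le_mul a1 (by linarith) (by linarith) (by positivity)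
          gcongr
      _ = 8 * (|C| * H) * (H + 1) ^ 2 * (k + 1) := by ring
      _ ≤ (k + 1) * (k + 1) := by gcongr; linarith
      _ = _ := by ring
  have e2 : C * H + 2 ≤ (k + 1) / (H + 1) / 2 := by
    rw [div_div, le_div_iff₀ (by positivity)]
    linarith
  linarith

theorem main {α β : ℝ} (h1 : 1 < |α|) (h2 : 1 < |β|) (Q : ℕ → ℕ → ℝ → Prop)
    (hQ : ∀ m H : ℕ, ∀ᶠ k : ℕ in atTop, ∀ s : ℝ, (k : ℝ) ^ 2 ≤ s → s ≤ k ^ 2 + k → ∃ d : ℝ, 0 ≤ d ∧
      d ≤ 2 * k / (m + 2) ∧ Step (exp (-s)) (exp (-(s + d))) fun t => Q m k t ∧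
        ∀ j, 1 ≤ j → j ≤ H → ‖SS α j s (s + d) t‖ ≤ (k + 1) / (H + 1))
    {Y : Type} [TopologicalSpace Y] (m0 m1 : Y → ℕ → ℕ)
    (l0 : ∀ k, IsLocallyConstant fun y => m0 y k) (l1 : ∀ k, IsLocallyConstant fun y => m1 y k) :
    ∃ (f : Y → ℝ) (g : ℕ → ℕ), Continuous f ∧ Tendsto g atTop atTop ∧ ∀ y,
      ((UD fun n => f y * α ^ n) ↔ Tendsto (m0 y) atTop atTop) ∧
      (Tendsto (m0 y) atTop atTop → Tendsto (m1 y) atTop atTop → UD fun n => f y * β ^ n) ∧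
      ∀ᶠ k in atTop, Q (min (m1 y (Nat.log 2 k)) (g k)) k (f y) := by
  choose L γ hp using par h1
  obtain ⟨C, hC⟩ := rand h1 h2
  have la := log_pos h1
  have lb := log_pos h2
  obtain ⟨f, g, f1, g1, f2⟩ := machine (fun k => exp (-(k : ℝ) ^ 2)) (fun k => (exp_pos _).le)
    (fun k => exp_le_exp.mpr (neg_le_neg (by gcongr; omega)))
    (tendsto_exp_neg_atTop_nhds_zero.comp
      ((tendsto_pow_atTop two_ne_zero).comp tendsto_natCast_atTop_atTop))
    (fun μ H k t => Hit α (2 * γ μ.1) (1 / ((μ.1 + 2) * L μ.1 * log |α|)) k t ∧ Q μ.2 k t ∧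
      ∀ j, 1 ≤ j → j ≤ H →
        ‖SS α j (k ^ 2) ((k + 1 : ℕ) ^ 2) t‖ ≤
          (2 / log |α| * ((μ.1 : ℝ) + 2)⁻¹ + 2 * ((H : ℝ) + 1)⁻¹) * (k + 1) ∧
        ‖SS β j (k ^ 2) ((k + 1 : ℕ) ^ 2) t‖ ≤ (2 / log |β| * ((μ.1 : ℝ) + 2)⁻¹ +
          2 / log |β| * ((μ.2 : ℝ) + 2)⁻¹ + ((H : ℝ) + 1)⁻¹) * (k + 1))
    (fun μ H => by
      obtain ⟨p0, p1, p2, p3, -⟩ := hp μ.1
      filter_upwards [arith h1 μ.1 p0, hQ μ.2 H, small C H] with k ⟨r, _, r1, r2⟩ q1 q2
      have hk0 : (0 : ℝ) ≤ k := Nat.cast_nonneg k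
      have hle : ∀ m : ℕ, 2 * (k : ℝ) / (m + 2) ≤ k := fun m => by
        rw [div_le_iff₀ (by positivity)]
        nlinarith [mul_nonneg hk0 (Nat.cast_nonneg (α := ℝ) m)]
      have s0 := (bias h1 p1.le (by linarith) (L := L μ.1) (by linarith) (s := (k : ℝ) ^ 2)
        (by positivity) r).mono le_rfl (m' := exp (-(k ^ 2 + 2 * k / (μ.1 + 2))))
        (exp_le_exp.mpr (by nlinarith)) fun t ht => r2 _ (2 * γ μ.1) t _ le_rfl (by linarith) le_rfl
          (by omega) fun j hj => (ht j hj).trans_lt (by linarith)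
      have d0 : 0 ≤ 2 * (k : ℝ) / (μ.1 + 2) := by positivity
      obtain ⟨d, d1, d2, s1⟩ := q1 (k ^ 2 + 2 * k / (μ.1 + 2)) (by linarith) (by linarith [hle μ.1])
      have d3 : (k : ℝ) ^ 2 + 2 * k / (μ.1 + 2) + d ≤ ((k + 1 : ℕ) : ℝ) ^ 2 := by
        push_cast
        nlinarith [hle μ.1, hle μ.2]
      have s2 := hC H _ _ (by positivity) d3
      refine ((s0.comp s1).comp s2).mono le_rfl le_rfl fun t ⟨⟨t1, t2, t3⟩, t4⟩ =>
        ⟨t1, t2, fun j j1 j2 => ?_⟩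
      have q3 := q2 (((k + 1 : ℕ) : ℝ) ^ 2 - (k ^ 2 + 2 * k / (μ.1 + 2) + d)) (by linarith)
        (by push_cast; nlinarith)
      have b1 : ∀ {ζ : ℝ}, 1 < |ζ| → ∀ (m : ℕ) (s c : ℝ), 0 ≤ s → 0 ≤ c → c ≤ 2 * k / (m + 2) →
          ‖SS ζ j s (s + c) t‖ ≤ 2 / log |ζ| * ((m : ℝ) + 2)⁻¹ * (k + 1) + 1 := by
        intro ζ hζ m s c a1 a2 a3
        refine (SS_triv hζ j a1 (by linarith) t).trans (add_le_add_left ?_ _)
        have := log_pos hζ
        rw [add_sub_cancel_left]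
        calc c / log |ζ| ≤ 2 * (k + 1) / (m + 2) / log |ζ| := by
              gcongr
              exact a3.trans (by gcongr; linarith)
          _ = _ := by field_simp
      constructor
      · rw [SS_add h1 j (s' := k ^ 2 + 2 * k / (μ.1 + 2) + d) (by linarith) d3,
          SS_add h1 j (s' := k ^ 2 + 2 * k / (μ.1 + 2)) (by linarith) (by linarith)]
        refine (norm_add₃_le).trans ?_
        have := b1 h1 μ.1 (k ^ 2) _ (by positivity) d0 le_rfl
        have := t3 j j1 j2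
        have := (t4 j j1 j2).1
        have e : ((k : ℝ) + 1) / (H + 1) = ((H : ℝ) + 1)⁻¹ * (k + 1) := by ring
        linarith
      · rw [SS_add h2 j (s' := k ^ 2 + 2 * k / (μ.1 + 2) + d) (by linarith) d3,
          SS_add h2 j (s' := k ^ 2 + 2 * k / (μ.1 + 2)) (by linarith) (by linarith)]
        refine (norm_add₃_le).trans ?_
        have := b1 h2 μ.1 (k ^ 2) _ (by positivity) d0 le_rfl
        have := b1 h2 μ.2 (k ^ 2 + 2 * k / (μ.1 + 2)) _ (by positivity) d1 d2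
        have := (t4 j j1 j2).2
        have e : ((k : ℝ) + 1) / (H + 1) = ((H : ℝ) + 1)⁻¹ * (k + 1) := by ring
        linarith)
    (fun y k => (m0 y (Nat.log 2 k), m1 y (Nat.log 2 k)))
    fun k => (l0 _).prodMk (l1 _)
  have hlog : Tendsto (Nat.log 2) atTop atTop := tendsto_atTop.mpr fun b =>
    (eventually_ge_atTop (2 ^ b)).mono fun k hk => Nat.le_log_of_pow_le one_lt_two hk
  have hinv : ∀ (c : ℝ) {v : ℕ → ℕ}, Tendsto v atTop atTop →
      Tendsto (fun k => ((v k : ℝ) + c)⁻¹) atTop (𝓝 0) := fun c v hv =>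
    (tendsto_atTop_add_const_right _ c (tendsto_natCast_atTop_atTop.comp hv)).inv_tendsto_atTop
  have hmin : ∀ {v : ℕ → ℕ}, Tendsto v atTop atTop →
      Tendsto (fun k => min (v (Nat.log 2 k)) (g k)) atTop atTop := fun hv =>
    tendsto_atTop.mpr fun b => (((hv.comp hlog).eventually_ge_atTop b).and
      (g1.eventually_ge_atTop b)).mono fun k hk => le_min hk.1 hk.2
  refine ⟨f, g, f1, g1, fun y => ⟨⟨fun hu => ?_, fun hm => ?_⟩, fun a b => ?_,
    (f2 y).mono fun k hk => hk.2.1⟩⟩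
  · by_contra hm
    exact nud h1 g1 hm hp ((f2 y).mono fun k hk m hm => hm ▸ hk.1) hu
  · refine ud h1 ?_ g1 ((f2 y).mono fun k hk j j1 j2 => (hk.2.2 j j1 j2).1)
    simpa using ((hinv 2 (hmin hm)).const_mul (2 / log |α|)).add ((hinv 1 g1).const_mul 2)
  · refine ud h2 ?_ g1 ((f2 y).mono fun k hk j j1 j2 => (hk.2.2 j j1 j2).2)
    simpa using (((hinv 2 (hmin a)).const_mul (2 / log |β|)).add
      ((hinv 2 (hmin b)).const_mul (2 / log |β|))).add (hinv 1 g1)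

theorem hard (h : 1 < |α|) (G : ℕ → ℕ → Set (ℕ → ℕ)) (hG : ∀ i j, IsClosed (G i j)) :
    ∃ f : (ℕ → ℕ) → ℝ, Continuous f ∧ ∀ y, y ∈ ⋂ i, ⋃ j, G i j ↔ UD fun n => f y * α ^ n := by
  obtain ⟨m, m1, m2⟩ := red G hG
  obtain ⟨f, g, f1, -, f2⟩ := main h h (fun _ _ _ => True)
    (fun m H => Eventually.of_forall fun k s _ _ => ⟨0, le_rfl, by positivity, fun p =>
      ⟨p, le_rfl, by simp, fun t _ _ => ⟨trivial, fun j _ _ => by
        simp only [SS, add_zero, Ico_self, sum_empty, norm_zero]; positivity⟩⟩⟩) m m m1 m1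
  exact ⟨f, f1, fun y => (m2 y).trans (f2 y).1.symm⟩

end Pool.Agent.H.MP_0447a2_lc
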